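import Mathlib
import Pool.Agent.Lib.MP_145df4_lc.Meagre

/-! For the meager ideal on the Cantor space, `cofin` equals `add`. -/

set_option autoImplicit false

namespace Pool.Agent.Lib.MP_145df4_lc.Old.MeagreAddCofin

open Pool.Agent.Lib.MP_145df4_lc

theorem result :
    IsLeast {γ : Ordinal.{0} | IsChainLength {A : Set (ℕ → Bool) | IsMeagre A} γ}
      (add {A : Set (ℕ → Bool) | IsMeagre A}).ord :=
  ⟨isChainLength_add_meagre, fun _ h => add_le_of_isChainLength h⟩

end Pool.Agent.Lib.MP_145df4_lc.Old.MeagreAddCofin
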