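import Mathlib
import Pool.Agent.Lib.MP_053343_lc.Defs
import Pool.Agent.Lib.MP_145df4_lc.NDefs
import Pool.Agent.Lib.MP_145df4_lc.Model2

/-! A transitive model of ZFC in which `add(N) < cofin(N) < cof(N)` for the null ideal. -/

set_option autoImplicit false

namespace Pool.Agent.Lib.MP_145df4_lc.Old.NullGaps

open Pool.Agent.Lib.MP_053343_lc Pool.Agent.Lib.MP_145df4_lc

theorem result : ∃ M : ZFSet.{0}, ModelZF M ∧ AC M ∧ ∃ a c f : ZFSet.{0},
    LeastOrd M (AddWit M) a ∧ LeastOrd M (ChainWit M) c ∧ LeastOrd M (CofWit M) f ∧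
      a ∈ c ∧ c ∈ f :=
  null_gaps

end Pool.Agent.Lib.MP_145df4_lc.Old.NullGaps
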